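import Pool.Agent.Q109.FV.Stm

set_option autoImplicit false

namespace Q109.FV

open SimpleGraph Filter Topology

/-- **NUM**. Rough numerical value of the limit (it is `0.84061…`).
`term 0 = 0` (`Fin 0` is empty, there is no tree and no root). `term 1 = e⁻¹ (1 - exp (-e⁻¹))`
(one tree, one root, `aut = rfix = 1`), about `0.11323`. `term 2 = 2 e⁻² (1 - exp (-e⁻²))` (one tree
on `Fin 2`, two roots, `aut = 1`, `rfix = 2`), about `0.03426`. All terms are nonnegative, so the
limit is at most `1 - term 1 - term 2 ≤ 0.8526`. For `s ≥ 1`: `term s ≤ s^s e^(-2s) / s!`, because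
`1 - exp (-y) ≤ y`, `aut ≥ 1`, `rfix ≤ s`, and there are `s^(s-2)` trees (hypothesis) and `s` roots
(`s = 1`: one). For `s = 3` this is `4.5 e^(-6) ≤ 0.0112`, and for `s ≥ 4` use `s^s / s! ≤ e^s`
(one term of the exponential series): `term s ≤ e^(-s)`, sum over `s ≥ 4` is
`e^(-4)/(1 - e⁻¹) ≤ 0.029`. So the limit is at least `1 - 0.1133 - 0.0343 - 0.0112 - 0.029 > 0.81`. -/
def S_NUM : Prop := (∀ n, 1 ≤ n → (trees n).card = n ^ (n - 2)) → Summable term →
  0.81 < 1 - ∑' s, term s ∧ 1 - ∑' s, term s < 0.86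

end Q109.FV
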