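import Pool.Agent.Q109.FV.Fin
import Pool.Agent.Q109.FV.Stm2
import Pool.Agent.Q272.FV.Br
import Pool.Agent.Q272.FV.Sym
import Pool.Agent.Q272.FV.Move
import Pool.Agent.Q272.FV.Uniq
import Pool.Agent.Q209.FV.Cop
import Pool.Agent.Q209.FV.Glue
import Pool.Agent.Q209.FV.Rec
import Pool.Agent.Q209.FV.Lab
import Pool.Agent.Q209.FV.Sum
import Pool.Agent.Q209.FV.QQ
import Pool.Agent.Q209.FV.AN
import Pool.Agent.Q209.FV.Out
import Pool.Agent.Q209.FV.Half
import Pool.Agent.Q165.FV_NUM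

set_option autoImplicit false

namespace Q109.FV

open SimpleGraph Filter Topology

theorem card_trees (n : ℕ) (hn : 1 ≤ n) : (trees n).card = n ^ (n - 2) := by
  classical
  rw [← Pool.Agent.TH272.WH.card_trees_eq hn, ← Set.ncard_coe_finset]
  congr 1
  ext T
  simp [trees]

theorem all : Summable term ∧ Tendsto EX atTop (𝓝 (1 - ∑' s, term s)) ∧
    0.81 < 1 - ∑' s, term s ∧ 1 - ∑' s, term s < 0.86 := by
  have hBR := Pool.Agent.Q272.FV.br
  have hSYM := Pool.Agent.Q272.FV.sym hBR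
  have hMOVE := Pool.Agent.Q272.FV.move hBR
  have hHALF := Pool.Agent.Q272.FV.half hBR
  have hUNIQ := Pool.Agent.Q272.FV.uniq hBR hSYM hMOVE
  have hCOP := Pool.Agent.Q209.FV.cop
  have hGLUE := Pool.Agent.Q209.FV.glue hBR
  have hREC := Pool.Agent.Q209.FV.recZ hCOP hGLUE
  have hLAB := Pool.Agent.Q209.FV.lab hBR
  have hSUM := Pool.Agent.Q209.FV.sumZ hUNIQ hCOP hLAB
  have hQ := Pool.Agent.Q209.FV.q
  have hAN := Pool.Agent.Q209.FV.an
  have hOUT := Pool.Agent.Q209.FV.out hREC hSUM hAN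
  have hHL := Pool.Agent.Q209.FV.halflim hREC hSUM hQ hAN
  have h := fin_limit card_trees hBR hSYM hMOVE hHALF hOUT hHL
  exact ⟨h.1, h.2, Q165.num card_trees h.1⟩

end Q109.FV
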