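import Mathlib

set_option autoImplicit false

/-! # Fixed vertices of random labelled trees: definitions (project FV, MP_20afc1_co) -/

namespace Q109.FV

open SimpleGraph

variable {V S : Type}

/-- `v` is fixed by every automorphism of the graph `T`. -/
def Fixed (T : SimpleGraph V) (v : V) : Prop := ∀ σ : T ≃g T, σ v = v

/-- The number of fixed vertices. -/
noncomputable def nfix (T : SimpleGraph V) : ℕ := Nat.card {v : V // Fixed T v}

open Classical in
/-- The labelled trees on the vertex set `Fin n`. -/
noncomputable def trees (n : ℕ) : Finset (SimpleGraph (Fin n)) :=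
  Finset.univ.filter fun T => T.IsTree

/-- `E(X_n)`: the average, over all labelled trees on `n` vertices, of the proportion of fixed
vertices. -/
noncomputable def EX (n : ℕ) : ℝ := (∑ T ∈ trees n, (nfix T : ℝ) / n) / (trees n).card

/-- The number of automorphisms of `t` fixing `r`. -/
noncomputable def aut (t : SimpleGraph S) (r : S) : ℕ := Nat.card {σ : t ≃g t // σ r = r}

/-- The number of vertices fixed by all automorphisms of `t` that fix `r`. -/
noncomputable def rfix (t : SimpleGraph S) (r : S) : ℕ :=
  Nat.card {v : S // ∀ σ : t ≃g t, σ r = r → σ v = v}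

/-- The contribution of the rooted trees with `s` vertices. -/
noncomputable def term (s : ℕ) : ℝ :=
  Real.exp (-(s : ℝ)) / s.factorial * ∑ t ∈ trees s, ∑ r : Fin s,
    (rfix t r : ℝ) * (1 - Real.exp (-(Real.exp (-(s : ℝ)) / aut t r)))

/-- The branch of `T` at `u` towards `x`: the vertices reachable from `x` when the edge `ux` is
deleted. -/
def Br (T : SimpleGraph V) (u x : V) : Set V := {w | (T.deleteEdges {s(u, x)}).Reachable x w}

/-- `ψ` is an isomorphism of the subgraph of `T` induced on `A` onto the one induced on `B`. -/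
def BIso (T : SimpleGraph V) (A B : Set V) (ψ : V → V) : Prop :=
  Set.BijOn ψ A B ∧ ∀ a ∈ A, ∀ b ∈ A, (T.Adj (ψ a) (ψ b) ↔ T.Adj a b)

/-- The branch at `u` towards `x` is isomorphic (as a rooted tree) to another branch at `u`. -/
def Twin (T : SimpleGraph V) (u x : V) : Prop :=
  T.Adj u x ∧ ∃ (x' : V) (ψ : V → V), x' ≠ x ∧ T.Adj u x' ∧ BIso T (Br T u x) (Br T u x') ψ ∧
    ψ x = x'

/-- The vertices of the branch fixed by all its rooted automorphisms. -/
def BF (T : SimpleGraph V) (u x : V) : Set V :=
  {w | w ∈ Br T u x ∧ ∀ ψ : V → V, BIso T (Br T u x) (Br T u x) ψ → ψ x = x → ψ w = w}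

/-- `v` lies in a branch which has a twin. -/
def Wit (T : SimpleGraph V) (v : V) : Prop := ∃ u x, Twin T u x ∧ v ∈ Br T u x

/-- `φ` maps the rooted tree `(t,r)` isomorphically onto a branch of `T` at `u`. -/
def IsCopy (t : SimpleGraph S) (r : S) (T : SimpleGraph V) (u : V) (φ : S → V) : Prop :=
  Function.Injective φ ∧ T.Adj u (φ r) ∧ Set.range φ = Br T u (φ r) ∧
    ∀ a b, T.Adj (φ a) (φ b) ↔ t.Adj a b

/-- The number of branches of `T` at `u` isomorphic to `(t,r)`. -/
noncomputable def mult (t : SimpleGraph S) (r : S) (T : SimpleGraph V) (u : V) : ℕ :=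
  Nat.card {x : V // ∃ φ : S → V, IsCopy t r T u φ ∧ φ r = x}

/-- The number of pairs (tree on `V`, vertex) with exactly `k` branches isomorphic to `(t,r)`. -/
noncomputable def Z (V : Type) (t : SimpleGraph S) (r : S) (k : ℕ) : ℕ :=
  Nat.card {p : SimpleGraph V × V // p.1.IsTree ∧ mult t r p.1 p.2 = k}

end Q109.FV
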