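import Pool.Agent.Q109.FV.Stm

set_option autoImplicit false

namespace Q109.FV

open SimpleGraph Filter Topology

theorem wit_not_fixed (hBR : S_BR) (hSYM : S_SYM) {V : Type} {T : SimpleGraph V} (hT : T.IsTree)
    {v : V} (h : Wit T v) : ¬ Fixed T v := by
  obtain ⟨u, x, ⟨hux, x', ψ, hne, hux', hiso, hψ⟩, hv⟩ := h
  intro hf
  obtain ⟨σ, h1, -⟩ := (hSYM V T hT u x hux).2 x' ψ hne hux' hiso hψ
  have h2 := (h1 v hv).1
  rw [hf σ] at h2
  have h3 : ψ v ∈ Br T u x' := hiso.1.mapsTo hv
  rw [← h2] at h3
  have hd := (hBR V T hT u x hux).2.2.2.2.2.2 x' hux' hne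
  exact Set.disjoint_left.1 hd hv h3

theorem not_fixed (hMOVE : S_MOVE) (hHALF : S_HALF) {V : Type} [Finite V]
    {T : SimpleGraph V} (hT : T.IsTree) {v : V} (h : ¬ Fixed T v) :
    Wit T v ∨ ∃ a b, T.Adj a b ∧ 2 * Nat.card (Br T a b) = Nat.card V := by
  unfold Fixed at h
  push Not at h
  obtain ⟨σ, hσ⟩ := h
  by_cases hc : ∃ c, σ c = c
  · obtain ⟨c, hc⟩ := hc
    obtain ⟨u, x, -, -, -, hv, -, htw⟩ := hMOVE V T hT σ c v hc hσ
    exact Or.inl ⟨u, x, htw, hv⟩
  · push Not at hc
    exact Or.inr (hHALF V T hT σ hc)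

theorem card_trees_one_le {n : ℕ} (hn : 1 ≤ n)
    (hcard : (trees n).card = n ^ (n - 2)) : (0 : ℝ) < (trees n).card := by
  rw [hcard]
  positivity

open Classical in
theorem fin_limit (hcard : ∀ n, 1 ≤ n → (trees n).card = n ^ (n - 2)) (hBR : S_BR)
    (hSYM : S_SYM) (hMOVE : S_MOVE) (hHALF : S_HALF) (hOUT : S_OUT) (hHL : S_HALFLIM) :
    Summable term ∧ Tendsto EX atTop (𝓝 (1 - ∑' s, term s)) := by
  refine ⟨hOUT.1, ?_⟩
  set W : ℕ → ℝ := fun n => (∑ T ∈ trees n, (Nat.card {v : Fin n // Wit T v} : ℝ)) /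
    (n : ℝ) ^ (n - 1) with hW
  set H : ℕ → ℝ := fun n =>
    (((trees n).filter fun T => ∃ a b, T.Adj a b ∧ 2 * Nat.card (Br T a b) = n).card : ℝ) /
    (n : ℝ) ^ (n - 2) with hH
  have hWlim : Tendsto W atTop (𝓝 (∑' s, term s)) := hOUT.2
  have hHlim : Tendsto H atTop (𝓝 0) := hHL
  have hpt : ∀ n, 1 ≤ n → ∀ T ∈ trees n,
      (Nat.card {v : Fin n // Wit T v} : ℝ) + nfix T ≤ n ∧
      (n : ℝ) ≤ nfix T + Nat.card {v : Fin n // Wit T v} +
        (if ∃ a b, T.Adj a b ∧ 2 * Nat.card (Br T a b) = n then (n : ℝ) else 0) := by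
    intro n hn T hT
    have hT' : T.IsTree := by
      simpa [trees] using hT
    have hfin : (Finset.univ.filter fun v : Fin n => Wit T v).card =
        Nat.card {v : Fin n // Wit T v} := by
      rw [Nat.card_eq_fintype_card, Fintype.card_subtype]
    have hfin2 : (Finset.univ.filter fun v : Fin n => Fixed T v).card = nfix T := by
      rw [nfix, Nat.card_eq_fintype_card, Fintype.card_subtype]
    rw [← hfin, ← hfin2]
    have hdis : Disjoint (Finset.univ.filter fun v : Fin n => Wit T v)
        (Finset.univ.filter fun v : Fin n => Fixed T v) := by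
      rw [Finset.disjoint_left]
      intro v hv hv'
      exact wit_not_fixed hBR hSYM hT' (Finset.mem_filter.1 hv).2 (Finset.mem_filter.1 hv').2
    constructor
    · have := Finset.card_union_of_disjoint hdis
      have h2 : ((Finset.univ.filter fun v : Fin n => Wit T v) ∪
        (Finset.univ.filter fun v : Fin n => Fixed T v)).card ≤ n := by
        calc _ ≤ (Finset.univ : Finset (Fin n)).card := Finset.card_le_univ _
          _ = n := by simp
      rw [this] at h2
      exact_mod_cast h2
    · split_ifs with hh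
      · have : (0 : ℝ) ≤ ((Finset.univ.filter fun v : Fin n => Fixed T v).card : ℝ) := by positivity
        have h3 : (0 : ℝ) ≤ ((Finset.univ.filter fun v : Fin n => Wit T v).card : ℝ) := by
          positivity
        linarith
      · have hcov : (Finset.univ : Finset (Fin n)) ⊆ (Finset.univ.filter fun v : Fin n => Fixed T v)
            ∪ (Finset.univ.filter fun v : Fin n => Wit T v) := by
          intro v _
          by_cases hf : Fixed T v
          · simp [hf]
          · rcases not_fixed hMOVE hHALF hT' hf with h | ⟨a, b, hab, h⟩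
            · simp [h]
            · exact absurd ⟨a, b, hab, by rw [h]; simp⟩ hh
        have h4 := Finset.card_le_card hcov
        have h5 := Finset.card_union_le (Finset.univ.filter fun v : Fin n => Fixed T v)
          (Finset.univ.filter fun v : Fin n => Wit T v)
        have h6 : n ≤ (Finset.univ.filter fun v : Fin n => Fixed T v).card +
            (Finset.univ.filter fun v : Fin n => Wit T v).card := by
          calc n = (Finset.univ : Finset (Fin n)).card := by simp
            _ ≤ _ := h4.trans h5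
        have h7 : (n : ℝ) ≤ ((Finset.univ.filter fun v : Fin n => Fixed T v).card : ℝ) +
            ((Finset.univ.filter fun v : Fin n => Wit T v).card : ℝ) := by exact_mod_cast h6
        linarith
  -- the expectation
  have hEX : ∀ n, 1 ≤ n → EX n = (∑ T ∈ trees n, (nfix T : ℝ)) / (n : ℝ) ^ (n - 1) := by
    intro n hn
    have hn0 : (n : ℝ) ≠ 0 := by positivity
    unfold EX
    rw [hcard n hn, ← Finset.sum_div, div_div]
    congr 1
    push_cast
    rcases Nat.lt_or_ge n 2 with h | h
    · interval_cases n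
      norm_num
    · rw [← pow_succ', show n - 2 + 1 = n - 1 by omega]
  have hup : ∀ n, 1 ≤ n → EX n ≤ 1 - W n := by
    intro n hn
    have hn0 : (0 : ℝ) < (n : ℝ) ^ (n - 1) := by positivity
    rw [hEX n hn, hW]
    simp only
    rw [le_sub_iff_add_le, ← add_div, div_le_one hn0, ← Finset.sum_add_distrib]
    calc (∑ T ∈ trees n, ((nfix T : ℝ) + (Nat.card {v : Fin n // Wit T v} : ℝ)))
        ≤ ∑ T ∈ trees n, (n : ℝ) := Finset.sum_le_sum fun T hT => by
          have := (hpt n hn T hT).1
          linarith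
      _ = (n : ℝ) ^ (n - 1) := by
          rw [Finset.sum_const, hcard n hn, nsmul_eq_mul]
          push_cast
          rcases Nat.lt_or_ge n 2 with h | h
          · interval_cases n
            norm_num
          · rw [← pow_succ, show n - 2 + 1 = n - 1 by omega]
  have hlo : ∀ n, 1 ≤ n → 1 - W n - H n ≤ EX n := by
    intro n hn
    have hn0 : (0 : ℝ) < (n : ℝ) ^ (n - 1) := by positivity
    have hnn : (n : ℝ) ^ (n - 1) = (n : ℝ) ^ (n - 2) * n ∨ n = 1 := by
      rcases Nat.lt_or_ge n 2 with h | h
      · right; omega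
      · left
        rw [← pow_succ, show n - 2 + 1 = n - 1 by omega]
    have hpow : ((n : ℝ) ^ (n - 2) * n) = (n : ℝ) ^ (n - 1) := by
      rcases hnn with h | h
      · exact h.symm
      · subst h; norm_num
    have hHn : H n = (∑ T ∈ trees n,
        (if ∃ a b, T.Adj a b ∧ 2 * Nat.card (Br T a b) = n then (n : ℝ) else 0)) /
          (n : ℝ) ^ (n - 1) := by
      simp only [hH]
      rw [← Finset.sum_filter, Finset.sum_const, nsmul_eq_mul, ← hpow]
      have hn1 : (n : ℝ) ≠ 0 := by positivity
      field_simp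
    rw [hEX n hn, hHn, hW]
    simp only
    rw [sub_le_iff_le_add, sub_le_iff_le_add, ← add_div, ← add_div, one_le_div hn0,
      ← Finset.sum_add_distrib, ← Finset.sum_add_distrib]
    calc (n : ℝ) ^ (n - 1) = ∑ T ∈ trees n, (n : ℝ) := by
          rw [Finset.sum_const, hcard n hn, nsmul_eq_mul]
          push_cast
          exact hpow.symm
      _ ≤ _ := Finset.sum_le_sum fun T hT => by
          have := (hpt n hn T hT).2
          linarith
  have h1 : Tendsto (fun n => 1 - W n) atTop (𝓝 (1 - ∑' s, term s)) :=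
    tendsto_const_nhds.sub hWlim
  have h2 : Tendsto (fun n => 1 - W n - H n) atTop (𝓝 (1 - ∑' s, term s)) := by
    simpa using h1.sub hHlim
  refine tendsto_of_tendsto_of_tendsto_of_le_of_le' h2 h1 ?_ ?_
  · filter_upwards [eventually_ge_atTop 1] with n hn using hlo n hn
  · filter_upwards [eventually_ge_atTop 1] with n hn using hup n hn

end Q109.FV
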