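import Pool.Agent.Q109.FV.Defs

set_option autoImplicit false

/-! # Project FV (helper109, MP_20afc1_co): statements with complete proofs

The limit of `E(X_n)`, the expected proportion of vertices of a random labelled tree fixed by all
automorphisms, is `1 - ∑ s, term s`. -/

namespace Q109.FV

open SimpleGraph Filter Topology

/-- **BR** (branches of a tree). `T` is a tree (not nec. finite), `ux` an edge, `B = Br T u x`.
Write `G' = T.deleteEdges {s(u,x)}`.
(a) `u ∉ B`: `isAcyclic_iff_forall_adj_isBridge` says that `ux` is a bridge.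
(e) the only edge leaving `B` is `xu`: if `ab` is an edge, `a ∈ B`, `b ∉ B` then `s(a,b) = s(u,x)`
(otherwise `G'.Adj a b`), and `a = u` is excluded by (a).
(b) complement: `Br T x u` and `B` are disjoint (else `u` and `x` are connected in `G'`) and their
union is closed under adjacency in `T` by (e), so it is everything (`T` connected).
(c),(d) `T.induce B` is acyclic (subgraph of an acyclic graph) and connected: a walk in `G'` from
`x` stays in `B`, so it is a walk of `T.induce B`. For the complement use (b) and (c) for `x,u`.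
(f) if `T.induce A` is preconnected, `A` meets `B` and not both `u,x ∈ A`, then `A ⊆ B`: otherwise
`A` has points in `B` and outside of `B`, hence an edge `ab` with `a,b ∈ A`, `a ∈ B`, `b ∉ B`, and
(e) gives `x,u ∈ A`.
(g) `Br T u x'` is disjoint from `B` if `x' ≠ x`: apply (f) with `A = Br T u x'` (it does not
contain `u` by (a)): if they meet, then `A ⊆ B`, so `x' ∈ B`, `u ∉ B`, and (e) gives `x' = x`. -/
def S_BR : Prop := ∀ (V : Type) (T : SimpleGraph V), T.IsTree → ∀ u x : V, T.Adj u x →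
  u ∉ Br T u x ∧ Br T x u = (Br T u x)ᶜ ∧ (T.induce (Br T u x)).IsTree ∧
  (T.induce (Br T u x)ᶜ).IsTree ∧
  (∀ a b, T.Adj a b → a ∈ Br T u x → b ∉ Br T u x → a = x ∧ b = u) ∧
  (∀ A : Set V, (T.induce A).Preconnected → (∃ a ∈ A, a ∈ Br T u x) → ¬ (u ∈ A ∧ x ∈ A) →
    A ⊆ Br T u x) ∧
  (∀ x', T.Adj u x' → x' ≠ x → Disjoint (Br T u x) (Br T u x'))

/-- **SYM** (extension and swap). `T` a tree, `ux` an edge.
(1) A rooted automorphism `ψ` of the branch extends by the identity to an automorphism of `T`: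
`σ w = ψ w` on `B = Br T u x`, `σ w = w` outside; bijective because `ψ` is a bijection of `B`;
adjacency: both ends in `B` or both outside: clear; one end `a ∈ B`, other end `b ∉ B`: by BR(e)
`ab` is an edge iff `a = x` and `b = u`, and `ψ a = x` iff `a = x` (`ψ` injective on `B`, `ψ x = x`).
(2) If `ψ` is an isomorphism of `B` onto another branch `B' = Br T u x'` at `u` with `ψ x = x'`, let
`σ = ψ` on `B`, `σ = ψ⁻¹` on `B'`, identity elsewhere (`B, B'` are disjoint by BR(g)). There is no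
edge between `B` and `B'` (an edge leaving `B` ends in `u ∉ B'`), the edges between `B ∪ B'` and the
rest are exactly `xu` and `x'u`, and `u ∉ B ∪ B'`. So `σ` preserves adjacency. -/
def S_SYM : Prop := ∀ (V : Type) (T : SimpleGraph V), T.IsTree → ∀ u x : V, T.Adj u x →
  (∀ ψ : V → V, BIso T (Br T u x) (Br T u x) ψ → ψ x = x →
    ∃ σ : T ≃g T, (∀ w ∈ Br T u x, σ w = ψ w) ∧ ∀ w, w ∉ Br T u x → σ w = w) ∧
  (∀ (x' : V) (ψ : V → V), x' ≠ x → T.Adj u x' → BIso T (Br T u x) (Br T u x') ψ → ψ x = x' →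
    ∃ σ : T ≃g T, (∀ w ∈ Br T u x, σ w = ψ w ∧ σ (ψ w) = w) ∧
      ∀ w, w ∉ Br T u x → w ∉ Br T u x' → σ w = w)

/-- **MOVE**. An automorphism `σ` of a tree with `σ c = c`, `σ v ≠ v`. Induction on a path (`IsPath`)
`p` from `c` to `v`. `p = nil` is impossible. `p = cons (c ~ c₁) q`. If `σ c₁ ≠ c₁` take `u = c`,
`x = c₁`: `q` is a path from `c₁` to `v` avoiding `c`, so it does not use the edge `cc₁` and
`v ∈ Br T c c₁`; `c ∉ Br T c c₁` by BR(a); and `Twin T c c₁` with `x' = σ c₁`, `ψ = σ`: `σ` maps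
`Br T c c₁` bijectively onto `Br T (σ c) (σ c₁) = Br T c (σ c₁)` (an automorphism of `T` is an
isomorphism of `T.deleteEdges {s(c,c₁)}` onto `T.deleteEdges {s(σ c,σ c₁)}`). If `σ c₁ = c₁`, the
induction hypothesis for `c₁` and `q` gives `u, x` with everything except `c ∉ Br T u x`; but
`c₁ ∉ Br T u x`, so `c ∈ Br T u x` would give `c = x` by BR(e), while `σ c = c`, `σ x ≠ x`. -/
def S_MOVE : Prop := ∀ (V : Type) (T : SimpleGraph V), T.IsTree → ∀ (σ : T ≃g T) (c v : V),
  σ c = c → σ v ≠ v → ∃ u x, σ u = u ∧ σ x ≠ x ∧ T.Adj u x ∧ v ∈ Br T u x ∧ c ∉ Br T u x ∧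
    Twin T u x

/-- **HALF**. An automorphism `σ` without fixed vertex inverts an edge, which splits `V` into two
halves. For every `v` take the first step `x v` of the path from `v` to `σ v ≠ v`; then
`σ v ∈ Br T v (x v)` (the rest of the path avoids `v`). The map `v ↦ s(v, x v)` from `V` to the edge
set is not injective (`Nat.card edgeSet + 1 = Nat.card V`), so there are `a ≠ b` with
`s(a, x a) = s(b, x b)`, hence `x a = b`, `x b = a`. So `σ a ∈ Br T a b` and
`σ b ∈ Br T b a = (Br T a b)ᶜ`, and `σ a`, `σ b` are adjacent; BR(e) for `Br T a b` gives `σ a = b`,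
`σ b = a`. `σ` maps `Br T a b` bijectively onto `Br T (σ a) (σ b) = Br T b a = (Br T a b)ᶜ`. -/
def S_HALF : Prop := ∀ (V : Type) [Finite V] (T : SimpleGraph V), T.IsTree → ∀ σ : T ≃g T,
  (∀ v, σ v ≠ v) → ∃ a b, T.Adj a b ∧ 2 * Nat.card (Br T a b) = Nat.card V

/-- **UNIQ**. `T` a finite tree, `v` a vertex with `Wit T v`. Then there is exactly one twin dart
`(u,x)` with `v ∈ BF T u x`.
Existence: among the `(u,x)` with `Twin T u x`, `v ∈ Br T u x` take one with `|Br T u x|` minimal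
(`B = Br T u x`). If `v ∉ BF T u x` there is a rooted automorphism `ψ` of `B` with `ψ v ≠ v`;
SYM(1) gives `σ : T ≃g T`, `σ = ψ` on `B`, identity outside. MOVE with `c = u` gives `u', x'` with
`σ x' ≠ x'` (so `x' ∈ B`), `v ∈ Br T u' x'`, `u ∉ Br T u' x'` and `Twin T u' x'`. BR(f) with
`A = Br T u' x'` (connected by BR(c), contains `x' ∈ B`, `u ∉ A`) gives `Br T u' x' ⊆ B`. And
`x ∉ Br T u' x'`: otherwise, as `u ∉ Br T u' x'`, BR(e) gives `x = x'`, but `σ x = x`. So
`Br T u' x'` is strictly smaller than `B`, contradiction.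
Uniqueness: let `(u,x) ≠ (u',x')` be twin darts, `B = Br T u x`, `B' = Br T u' x'`,
`v ∈ BF T u x ∩ BF T u' x'`. The twin of `B` is disjoint from it (BR(g)), equally large, and does not
contain `u ∉ B`; so `2|B| + 1 ≤ |V|`, and the same for `B'`. If both `u,x ∈ B'`: then not both
`u',x' ∈ B` is automatic for `u'`... precisely: (1) if not (`u ∈ B'` and `x ∈ B'`), then BR(f)
(`A = B'`, meets `B` in `v`) gives `B' ⊆ B`. (2) If `u, x ∈ B'`, then the set `Bᶜ` is connected
(BR(d)) and meets `B'` in `u`; if `u' ∈ B`, then not both `u',x' ∈ Bᶜ` and BR(f) for `B'` gives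
`Bᶜ ⊆ B'`, so `|V| ≤ |B| + |B'| < |V|`, contradiction; if `u' ∉ B`, then BR(f) for `B'` and the
connected set `B` (meets `B'` in `v`) gives `B ⊆ B'`. So in all cases the branches are nested;
by symmetry let `B' ⊆ B`. If `B' = B` then `x' ∈ B`, `u' ∉ B` and BR(e) give `(u',x') = (u,x)`.
So `B' ⊊ B`. Then `u' ∈ B` (otherwise BR(e) gives `x' = x`, `u' = u`). Let `(x'', ρ)` be the twin of
`(u',x')`, `B'' = Br T u' x''`, `|B''| = |B'| < |B|`. `u ∉ B''`: otherwise `A = Bᶜ` is connected,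
meets `B''`, `u' ∉ A`, so `Bᶜ ⊆ B''` by BR(f), but `Bᶜ` contains the twin of `B`, so
`|B''| ≥ |B|`, contradiction. `x'' ∈ B`: otherwise `u' ∈ B`, `x'' ∉ B` adjacent give `x'' = u ∈ B''`.
So `B'' ⊆ B` by BR(f) (`A = B''`, contains `x'' ∈ B`, `u ∉ A`). `x ∉ B'`: otherwise `u ∉ B' ⊆ B`
and BR(e) for `B'` give `u = u' ∈ B`, contradiction to BR(a); `x ∉ B''` in the same way. SYM(2)
gives an automorphism `σ` of `T` exchanging `B'` and `B''`, identity elsewhere; so `σ` maps `B` onto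
`B` and fixes `x`, hence `BIso T B B σ`, and `v ∈ BF T u x` gives `σ v = v`; but `v ∈ B'` and
`σ v ∈ B''`, which is disjoint from `B'`. -/
def S_UNIQ : Prop := ∀ (V : Type) [Finite V] (T : SimpleGraph V), T.IsTree →
  (∀ v, Wit T v → ∃! p : V × V, Twin T p.1 p.2 ∧ v ∈ BF T p.1 p.2)

/-- **COP**. Copies of the rooted tree `(t,r)` in branches.
(i) Send a copy `φ` to `φ r`; for a fixed value `x` choose one copy `φ₀`; every other copy `φ` with
`φ r = x` has the same range `Br T u x`, so `φ = φ₀ ∘ σ` with a unique bijection `σ` of `S`, which is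
an automorphism of `t` with `σ r = r`, and conversely. So every fibre has `aut t r` elements.
(ii) if `φ` is a copy: a twin `(x',ψ)` of `(u, φ r)` gives the copy `ψ ∘ φ` with root `x' ≠ φ r`;
conversely if `mult ≥ 2` there is a copy `φ'` with `φ' r ≠ φ r` and `ψ = φ' ∘ φ⁻¹` (any extension to
`V`) is an isomorphism of the branches.
(iii) `a ↦ φ a` maps the vertices of `S` fixed by all rooted automorphisms of `(t,r)` bijectively
onto `BF T u (φ r)`: rooted automorphisms `ψ` of the branch (functions on `V`, only the values on the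
branch matter) correspond to `φ⁻¹ ∘ ψ ∘ φ`. -/
def S_COP : Prop := ∀ (S V : Type) [Finite S] [Finite V] (t : SimpleGraph S) (r : S)
  (T : SimpleGraph V) (u : V),
  Nat.card {φ : S → V // IsCopy t r T u φ} = aut t r * mult t r T u ∧
  ∀ φ : S → V, IsCopy t r T u φ →
    (Twin T u (φ r) ↔ 2 ≤ mult t r T u) ∧ Nat.card (BF T u (φ r)) = rfix t r

/-- **GLUE**. `t` a tree on `S`, `φ : S → V` injective, `W = {v // v ∉ range φ}`. The map
`(T,u) ↦ (T.induce (range φ)ᶜ, u)` is a bijection from the pairs (tree on `V`, vertex) such that `φ`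
is a copy of `(t,r)` at `u`, onto the pairs (tree on `W`, vertex), and it lowers `mult t r` by one.
`u ∉ range φ` by BR(a). The induced graph is a tree by BR(d). `T` is determined by its induced graph
on `W`, by `φ`, `t` and `u`: inside `range φ` adjacency is given by `t`, and between `range φ` and
the complement the only edge is `(φ r, u)` by BR(e). Surjective: given a tree `T₁` on `W` and
`u ∈ W`, let `T` be the union of `T₁`, the image of `t` under `φ` and the edge `{u, φ r}`. It is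
connected, and has `(|W| - 1) + (|S| - 1) + 1 = |V| - 1` edges, so it is a tree
(`isTree_iff_connected_and_card`); `Br T u (φ r) = range φ` because `t` is connected and, after
deleting the edge `{u, φ r}`, there is no edge between `range φ` and its complement.
Multiplicities: the branch at `φ r` is one of those counted by `mult t r T u`. For another
neighbour `x' ≠ φ r` of `u` (it lies in `W` by BR(e)), `Br T u x'` is disjoint from `range φ` by
BR(g), and it is the image of `Br T₁ u x'` in `V`: walks in `T.deleteEdges {s(u,x')}` starting in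
`x'` stay in `Br T u x' ⊆ W`. So the copies of `(t,r)` at `u` in `T` with root `x' ≠ φ r` are
exactly the copies in `T₁` at `u`; the neighbours of `u` in `T₁` are the neighbours `≠ φ r` of `u`. -/
def S_GLUE : Prop := ∀ (S V : Type) [Finite S] [Finite V] (t : SimpleGraph S) (r : S) (k : ℕ)
  (φ : S → V), t.IsTree → Function.Injective φ →
  Nat.card {p : SimpleGraph V × V // p.1.IsTree ∧ IsCopy t r p.1 p.2 φ ∧
    mult t r p.1 p.2 = k + 1} = Z {v : V // v ∉ Set.range φ} t r k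

/-- **REC**. Count the triples `(T,u,φ)`, `T` a tree on `V`, `φ` a copy of `(t,r)` at `u`,
`mult t r T u = k+1`, in two ways. By COP(i) every pair `(T,u)` has `aut t r * (k+1)` copies. By
GLUE every injective `φ : S → V` (there are `|V|.descFactorial |S|` of them,
`Fintype.card_embedding_eq`) belongs to `Z {v // v ∉ range φ} t r k` pairs, and this number only
depends on the cardinality `|V| - |S|` of the type (transport of structure: an equivalence `e` of
types maps trees to trees, copies `φ` to `e ∘ φ`). If `|V| < |S|` both sides are `0`.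
Also: `Z` of an empty type is `0`; `mult ≤ |V|`, so `Z V t r k = 0` for `k > |V|`; and the number of
pairs (tree, vertex) is `n ^ (n-1)` by Cayley's formula
`Pool.Agent.TH272.WH.card_trees_eq : 1 ≤ n → {T : SimpleGraph (Fin n) | T.IsTree}.ncard = n ^ (n-2)`
(file `Pool/Agent/TH272/WH/Main.lean` of the starting library). -/
def S_REC : Prop := (∀ (S V : Type) [Fintype S] [Fintype V] (t : SimpleGraph S) (r : S) (k : ℕ),
    t.IsTree → aut t r * (k + 1) * Z V t r (k + 1) =
      (Fintype.card V).descFactorial (Fintype.card S) *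
        Z (Fin (Fintype.card V - Fintype.card S)) t r k) ∧
  (∀ (S : Type) [Fintype S] (t : SimpleGraph S) (r : S) (k : ℕ), Z (Fin 0) t r k = 0) ∧
  (∀ (S : Type) [Fintype S] (t : SimpleGraph S) (r : S) (n k : ℕ), n < k → Z (Fin n) t r k = 0) ∧
  (∀ (S : Type) [Fintype S] (t : SimpleGraph S) (r : S) (n : ℕ), 1 ≤ n →
    ∑ k ∈ Finset.range (n + 1), Z (Fin n) t r k = n ^ (n - 1))

/-- **LAB**. `T` a tree on `V`, `ux` an edge, `s = |Br T u x|`. There are exactly `s!` triples
`(t,r,φ)`, `(t,r)` a rooted labelled tree on `Fin s` and `φ` a copy of it at `u` with `φ r = x`: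
`φ` is any bijection of `Fin s` onto `Br T u x`, and `t = T.comap φ`, `r = φ⁻¹ x` are determined
(`t` is a tree because `T.induce (Br T u x)` is one, BR(c)). -/
def S_LAB : Prop := ∀ (V : Type) [Finite V] (T : SimpleGraph V), T.IsTree → ∀ (u x : V) (s : ℕ),
  T.Adj u x → Nat.card (Br T u x) = s →
  Nat.card {q : (SimpleGraph (Fin s) × Fin s) × (Fin s → V) // q.1.1.IsTree ∧
    IsCopy q.1.1 q.1.2 T u q.2 ∧ q.2 q.1.2 = x} = s.factorial

/-- **SUM**. The two sums over all trees on `Fin n`, by the number `s` of vertices of the branch.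
First part: for a tree `T`, by UNIQ the number of `v` with `Wit T v` is the sum of `|BF T u x|` over
the twin darts `(u,x)` (every `v ∈ BF T u x` with `Twin T u x` has `Wit T v`). For a twin dart with
`|Br T u x| = s ≤ n`, LAB gives `s!` triples `(t,r,φ)`, and `|BF T u x| = rfix t r` by COP(iii). So
`s! * ∑_{T, (u,x) twin, |Br T u x| = s} |BF T u x|` is the sum of `rfix t r` over all
`(t,r)`, `T`, `u`, `φ` with `φ` a copy and `Twin T u (φ r)` (note `|Br T u (φ r)| = |range φ| = s`),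
and by COP(ii) the condition on `Twin` is `mult t r T u ≥ 2`; by COP(i) each pair `(T,u)` with
`mult t r T u = k` has `aut t r * k` copies. Second part: the same with the weight `1` and without
the twin condition. -/
def S_SUM : Prop := ∀ n : ℕ,
  (∑ T ∈ trees n, (Nat.card {v : Fin n // Wit T v} : ℝ) =
    ∑ s ∈ Finset.range (n + 1), (1 / (s.factorial : ℝ)) * ∑ t ∈ trees s, ∑ r : Fin s,
      (rfix t r : ℝ) * ∑ k ∈ Finset.Icc 2 n, (aut t r : ℝ) * k * (Z (Fin n) t r k : ℝ)) ∧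
  ∀ s : ℕ, ∑ T ∈ trees n,
      (Nat.card {p : Fin n × Fin n // T.Adj p.1 p.2 ∧ Nat.card (Br T p.1 p.2) = s} : ℝ) =
    (1 / (s.factorial : ℝ)) * ∑ t ∈ trees s, ∑ r : Fin s,
      ∑ k ∈ Finset.Icc 1 n, (aut t r : ℝ) * k * (Z (Fin n) t r k : ℝ)

/-- **Q**. `q n k = n.descFactorial k * (n-k)^(n-k-1) / n^(n-1)`.
Bound, for `k < n`, `m = n - k ≥ 1`: the sequence `a n = n! e^n / n^(n+1)` is decreasing for `n ≥ 1`
(`a (n+1) / a n = e (n/(n+1))^(n+1) ≤ 1` because `(1+1/n)^(n+1) ≥ e`, i.e.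
`(n+1) log (1+1/n) ≥ 1`), so `n!/m! * m^(m+1)/n^(n+1) ≤ e^(-k)` and `q n k ≤ (n/m)^2 e^(-k)`,
and `n/m ≤ k+1` since `n ≤ m (k+1)`.
Limit for fixed `k`: `n.descFactorial k / n^k → 1` and
`(n-k)^(n-k-1) n^k / n^(n-1) = (1 - k/n)^(n-k-1) → e^(-k)`
(`Real.tendsto_one_add_div_pow_exp` or logarithms). -/
def S_Q : Prop := (∀ n k : ℕ, k < n →
    (n.descFactorial k : ℝ) * ((n - k : ℕ) : ℝ) ^ (n - k - 1) / (n : ℝ) ^ (n - 1) ≤
      ((n : ℝ) / ((n - k : ℕ) : ℝ)) ^ 2 * Real.exp (-(k : ℝ)) ∧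
    (n.descFactorial k : ℝ) * ((n - k : ℕ) : ℝ) ^ (n - k - 1) / (n : ℝ) ^ (n - 1) ≤
      ((k : ℝ) + 1) ^ 2 * Real.exp (-(k : ℝ))) ∧
  ∀ k : ℕ, Tendsto (fun n : ℕ =>
    (n.descFactorial k : ℝ) * ((n - k : ℕ) : ℝ) ^ (n - k - 1) / (n : ℝ) ^ (n - 1)) atTop
    (𝓝 (Real.exp (-(k : ℝ))))

/-- The hypotheses of the abstract recurrence. -/
def HypZ (a : ℝ) (s : ℕ) (z : ℕ → ℕ → ℝ) : Prop :=
  1 ≤ a ∧ 1 ≤ s ∧ (∀ n k : ℕ, 0 ≤ z n k) ∧ (∀ k : ℕ, z 0 k = 0) ∧
  (∀ n k : ℕ, n < k → z n k = 0) ∧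
  (∀ n : ℕ, 1 ≤ n → ∑ k ∈ Finset.range (n + 1), z n k = (n : ℝ) ^ (n - 1)) ∧
  ∀ n k : ℕ, a * ((k : ℝ) + 1) * z n (k + 1) = (n.descFactorial s : ℝ) * z (n - s) k

/-- **AN**. Abstract recurrence `a (k+1) z n (k+1) = (n)_s z (n-s) k` with total mass `n^(n-1)`.
Write `q n k` as in **Q**, `(n)_k = n.descFactorial k`; `(n)_s (n-s)_(k) = (n)_(s+k)`.
(1) For `n > s`: `∑_{k=1}^n a k z n k = (n)_s ∑_{j=0}^{n-1} z (n-s) j = (n)_s (n-s)^(n-s-1)`
(terms with `j > n-s` vanish); for `n ≤ s` the sum is `0`.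
(2) For `k ≥ 2`: `a k z n k ≤ a k (k-1) z n k = (k-1) (n)_s z (n-s) (k-1)
= (1/a) (n)_s (n-s)_s z (n-2s) (k-2)`. Summing, for `n > 2s`:
`∑_{k=2}^n a k z n k ≤ (1/a) (n)_(2s) (n-2s)^(n-2s-1) ≤ (2s+1)^2 e^(-2s) n^(n-1)` by **Q** and
`a ≥ 1`; for `n ≤ 2s` the sum is `0` (`z 0 = 0`, `(n)_(2s) = 0`).
(3) Limit. For all `j`: `∑_k C(k,j) z n k = (n)_(js) (n-js)^(n-js-1) / (j! a^j)` if `n > js`, and `0`
if `n ≤ js`, `n ≥ 1`, `j ≥ 1` (iterate the recurrence: `k(k-1)…(k-j+1) z n k = (n)_(js) a^(-j)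
z (n-js) (k-j)`). Since `∑_j (-1)^j C(k,j) = [k = 0]`, `z n 0 = ∑_{j ≤ n} (-1)^j ∑_k C(k,j) z n k`,
so `z n 0 / n^(n-1) = ∑_j (-1)^j q n (js) / (j! a^j)` (terms with `js < n`). Dominated convergence
(`tendsto_tsum_of_dominated_convergence`, bound `(js+1)^2 e^(-js) / j!`) gives
`z n 0 / n^(n-1) → ∑_j (-1)^j e^(-js) / (j! a^j) = exp (-(e^(-s)/a))`. For `n > s`:
`∑_{k=2}^n a k z n k = (n)_s ((n-s)^(n-s-1) - z (n-s) 0)`, and division by `n^(n-1)` gives
`q n s (1 - z (n-s) 0 / (n-s)^(n-s-1)) → e^(-s) (1 - exp (-(e^(-s)/a)))`. -/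
def S_AN : Prop := ∀ (a : ℝ) (s : ℕ) (z : ℕ → ℕ → ℝ), HypZ a s z →
  (∀ n, s < n → ∑ k ∈ Finset.Icc 1 n, a * k * z n k =
    (n.descFactorial s : ℝ) * ((n - s : ℕ) : ℝ) ^ (n - s - 1)) ∧
  (∀ n, 1 ≤ n → ∑ k ∈ Finset.Icc 2 n, a * k * z n k ≤
    (2 * (s : ℝ) + 1) ^ 2 * Real.exp (-(2 * (s : ℝ))) * (n : ℝ) ^ (n - 1)) ∧
  Tendsto (fun n : ℕ => (∑ k ∈ Finset.Icc 2 n, a * k * z n k) / (n : ℝ) ^ (n - 1)) atTop
    (𝓝 (Real.exp (-(s : ℝ)) * (1 - Real.exp (-(Real.exp (-(s : ℝ)) / a)))))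

/-- **OUT** (outer dominated convergence). `w n = n^(-(n-1)) ∑_T #{v | Wit T v}` tends to
`∑ s, term s`. By SUM `w n = ∑_{s ≤ n} (1/s!) ∑_{t,r} rfix t r * R n / n^(n-1)`, where
`R n = ∑_{k=2}^n aut t r * k * Z (Fin n) t r k`; for fixed `s ≥ 1` and `(t,r)` the function
`z n k = Z (Fin n) t r k` satisfies `HypZ (aut t r) s z` by REC (`aut t r ≥ 1`: the identity;
`s = 0` gives nothing since `Fin 0` is empty), so AN gives the limit of the `s`-th summand, which is
`term s`, and the bound `(1/s!) * s^(s-1) * s * (2s+1)^2 e^(-2s)` (`rfix t r ≤ s`, number of pairs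
`(t,r)` is at most `s^(s-1)` by Cayley's formula, which is also the last part of REC), and this is
`≤ (2s+1)^2 e^(-s)` because `s^s/s! ≤ e^s`; summable. -/
def S_OUT : Prop := Summable term ∧
  Tendsto (fun n : ℕ => (∑ T ∈ trees n, (Nat.card {v : Fin n // Wit T v} : ℝ)) /
    (n : ℝ) ^ (n - 1)) atTop (𝓝 (∑' s, term s))

open Classical in
/-- **HALFLIM**. The proportion of trees on `Fin n` with an edge splitting the tree into two equal
halves tends to zero. If `n` is odd there is none. If `n = 2s`, their number is at most the second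
sum of SUM, which by AN(1) (and REC, `HypZ`) is `(1/s!) * #{(t,r)} * (n)_s * (n-s)^(n-s-1)` with
`#{(t,r)} = s^(s-1)`; divided by `n^(n-2)` this is `n (s^(s-1)/s!) q n s
≤ n (s^(s-1)/s!) (n/(n-s))^2 e^(-s) = 8 s^s e^(-s) / s!`, by **Q**, and `s^s e^(-s)/s! → 0` by
Stirling (`Stirling.sqrt_pi_le_stirlingSeq`: `s! ≥ sqrt (2 π s) (s/e)^s`), or directly. -/
def S_HALFLIM : Prop := Tendsto (fun n : ℕ =>
  (((trees n).filter fun T => ∃ a b, T.Adj a b ∧ 2 * Nat.card (Br T a b) = n).card : ℝ) /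
    (n : ℝ) ^ (n - 2)) atTop (𝓝 0)

end Q109.FV
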